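import Pool.Agent.W263.SP.Stm

/-! SP-WIN: window integrals from the local bound. -/

set_option autoImplicit false

namespace Pool.Agent.W513.SP

open MeasureTheory Set Pool.Agent.W263.SP

theorem L1 (σ s : ℝ) (hσ : 0 < σ) :
    ∫⁻ y in Icc s (s + 1), ENNReal.ofReal (2 / (σ + (y - s))) =
      ENNReal.ofReal (2 * Real.log ((σ + 1) / σ)) := by
  have hint : IntegrableOn (fun y => 2 / (σ + (y - s))) (Icc s (s + 1)) := by
    apply ContinuousOn.integrableOn_Icc
    apply ContinuousOn.div continuousOn_const (by fun_prop)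
    intro y hy
    have := hy.1
    have : 0 < σ + (y - s) := by linarith
    exact this.ne'
  rw [← ofReal_integral_eq_lintegral_ofReal hint]
  · congr 1
    rw [integral_Icc_eq_integral_Ioc, ← intervalIntegral.integral_of_le (by linarith)]
    rw [intervalIntegral.integral_eq_sub_of_hasDerivAt (f := fun y => 2 * Real.log (σ + (y - s)))]
    · rw [Real.log_div (by linarith) (by linarith)]
      simp only [sub_self, add_zero]
      have : s + 1 - s = 1 := by ring
      rw [this]
      ring
    · intro y hy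
      rw [uIcc_of_le (by linarith)] at hy
      have h1 := hy.1
      have h0 : σ + (y - s) ≠ 0 := by
        have : 0 < σ + (y - s) := by linarith
        exact this.ne'
      have h2 : HasDerivAt (fun y : ℝ => σ + (y - s)) 1 y :=
        ((hasDerivAt_id y).sub_const s).const_add σ
      have h3 := (h2.log h0).const_mul 2
      rw [mul_one_div] at h3
      exact h3
    · rw [intervalIntegrable_iff_integrableOn_Icc_of_le (by linarith)]
      exact hint
  · refine (ae_restrict_iff' measurableSet_Icc).mpr (Filter.Eventually.of_forall ?_)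
    intro y hy
    have := hy.1
    have : 0 < σ + (y - s) := by linarith
    show (0 : ℝ) ≤ 2 / (σ + (y - s))
    positivity

theorem L2 (σ s : ℝ) (hσ : 0 < σ) :
    ∫⁻ y in Icc (s - 1) s, ENNReal.ofReal (2 / (σ + (s - y))) =
      ENNReal.ofReal (2 * Real.log ((σ + 1) / σ)) := by
  have hint : IntegrableOn (fun y => 2 / (σ + (s - y))) (Icc (s - 1) s) := by
    apply ContinuousOn.integrableOn_Icc
    apply ContinuousOn.div continuousOn_const (by fun_prop)
    intro y hy
    have := hy.2
    have : 0 < σ + (s - y) := by linarith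
    exact this.ne'
  rw [← ofReal_integral_eq_lintegral_ofReal hint]
  · congr 1
    rw [integral_Icc_eq_integral_Ioc, ← intervalIntegral.integral_of_le (by linarith)]
    rw [intervalIntegral.integral_eq_sub_of_hasDerivAt (f := fun y => -(2 * Real.log (σ + (s - y))))]
    · rw [Real.log_div (by linarith) (by linarith)]
      simp only [sub_self, add_zero]
      have : s - (s - 1) = 1 := by ring
      rw [this]
      ring
    · intro y hy
      rw [uIcc_of_le (by linarith)] at hy
      have h1 := hy.2
      have h0 : σ + (s - y) ≠ 0 := by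
        have : 0 < σ + (s - y) := by linarith
        exact this.ne'
      have h2 : HasDerivAt (fun y : ℝ => σ + (s - y)) (-1) y :=
        ((hasDerivAt_id y).const_sub s).const_add σ
      have h3 := ((h2.log h0).const_mul 2).neg
      have h4 : -(2 * (-1 / (σ + (s - y)))) = 2 / (σ + (s - y)) := by ring
      rw [h4] at h3
      exact h3
    · rw [intervalIntegrable_iff_integrableOn_Icc_of_le (by linarith)]
      exact hint
  · refine (ae_restrict_iff' measurableSet_Icc).mpr (Filter.Eventually.of_forall ?_)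
    intro y hy
    have := hy.2
    have : 0 < σ + (s - y) := by linarith
    show (0 : ℝ) ≤ 2 / (σ + (s - y))
    positivity

theorem L3 (σ t a : ℝ) (hσ : 0 < σ) :
    ∫⁻ y in Icc a (a + 1), ENNReal.ofReal (2 / (σ + |y - t|)) ≤
      ENNReal.ofReal (4 * Real.log ((σ + 1) / σ)) := by
  have hlog : 0 ≤ Real.log ((σ + 1) / σ) := by
    apply Real.log_nonneg
    rw [le_div_iff₀ hσ]
    linarith
  obtain ⟨s, hs1, hs2, hs3, hs4⟩ : ∃ s : ℝ, a ≤ s ∧ s ≤ a + 1 ∧
      (∀ y ∈ Icc a s, s - y ≤ |y - t|) ∧ (∀ y ∈ Icc s (a + 1), y - s ≤ |y - t|) := by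
    rcases lt_or_ge t a with h | h
    · refine ⟨a, le_rfl, by linarith, ?_, ?_⟩
      · intro y hy
        have := hy.1
        have := abs_nonneg (y - t)
        linarith
      · intro y hy
        have := le_abs_self (y - t)
        linarith
    · rcases lt_or_ge (a + 1) t with h' | h'
      · refine ⟨a + 1, by linarith, le_rfl, ?_, ?_⟩
        · intro y hy
          have := neg_abs_le (y - t)
          linarith
        · intro y hy
          have := hy.2
          have := abs_nonneg (y - t)
          linarith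
      · refine ⟨t, h, h', ?_, ?_⟩
        · intro y hy
          have := neg_abs_le (y - t)
          linarith
        · intro y hy
          exact le_abs_self (y - t)
  have hsub : Icc a (a + 1) ⊆ Icc a s ∪ Icc s (a + 1) := by
    intro y hy
    rcases le_total y s with h | h
    · exact Or.inl ⟨hy.1, h⟩
    · exact Or.inr ⟨h, hy.2⟩
  have h1 : ∫⁻ y in Icc a s, ENNReal.ofReal (2 / (σ + |y - t|)) ≤
      ENNReal.ofReal (2 * Real.log ((σ + 1) / σ)) := by
    rw [← L2 σ s hσ]
    refine le_trans (setLIntegral_mono' measurableSet_Icc (g := fun y => ENNReal.ofReal (2 / (σ + (s - y)))) ?_)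
      (lintegral_mono_set (Icc_subset_Icc (by linarith) le_rfl))
    intro y hy
    apply ENNReal.ofReal_le_ofReal
    have h2 := hy.2
    have h3 := hs3 y hy
    have h4 : 0 < σ + (s - y) := by linarith
    exact div_le_div_of_nonneg_left (by norm_num) h4 (by linarith)
  have h2 : ∫⁻ y in Icc s (a + 1), ENNReal.ofReal (2 / (σ + |y - t|)) ≤
      ENNReal.ofReal (2 * Real.log ((σ + 1) / σ)) := by
    rw [← L1 σ s hσ]
    refine le_trans (setLIntegral_mono' measurableSet_Icc (g := fun y => ENNReal.ofReal (2 / (σ + (y - s)))) ?_)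
      (lintegral_mono_set (Icc_subset_Icc le_rfl (by linarith)))
    intro y hy
    apply ENNReal.ofReal_le_ofReal
    have h2 := hy.1
    have h3 := hs4 y hy
    have h4 : 0 < σ + (y - s) := by linarith
    exact div_le_div_of_nonneg_left (by norm_num) h4 (by linarith)
  calc ∫⁻ y in Icc a (a + 1), ENNReal.ofReal (2 / (σ + |y - t|))
      ≤ ∫⁻ y in Icc a s ∪ Icc s (a + 1), ENNReal.ofReal (2 / (σ + |y - t|)) := lintegral_mono_set hsub
    _ ≤ _ := lintegral_union_le _ _ _
    _ ≤ ENNReal.ofReal (2 * Real.log ((σ + 1) / σ)) + ENNReal.ofReal (2 * Real.log ((σ + 1) / σ)) :=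
      add_le_add h1 h2
    _ = ENNReal.ofReal (4 * Real.log ((σ + 1) / σ)) := by
      rw [← ENNReal.ofReal_add (by positivity) (by positivity)]
      congr 1
      ring

theorem win : Pool.Agent.W263.SP.WIN := by
  intro D K hK hLB
  refine ⟨5 * K, by linarith, ?_⟩
  intro σ hσ0 hσ1 y0
  obtain ⟨n, ρ, hn, hρ, hD⟩ := hLB y0
  obtain ⟨L, hL⟩ : ∃ L : ℝ, L = Real.log (2 + |y0|) := ⟨_, rfl⟩
  rw [← hL] at hn hD ⊢
  have hL0 : 0 ≤ L := by
    rw [hL]
    apply Real.log_nonneg
    have := abs_nonneg y0
    linarith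
  have hlog : 0 ≤ Real.log ((σ + 1) / σ) := by
    apply Real.log_nonneg
    rw [le_div_iff₀ hσ0]
    linarith
  have hlog2 : Real.log ((σ + 1) / σ) ≤ 1 + Real.log (1 / σ) := by
    rw [Real.log_div (by linarith) hσ0.ne', Real.log_div one_ne_zero hσ0.ne', Real.log_one]
    have h1 : Real.log (σ + 1) ≤ σ := by
      have := Real.log_le_sub_one_of_pos (show 0 < σ + 1 by linarith)
      linarith
    linarith
  have hlog3 : 0 ≤ Real.log (1 / σ) := by
    apply Real.log_nonneg
    rw [le_div_iff₀ hσ0]
    linarith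
  have hpt : ∀ y ∈ Icc (y0 - 1 / 2) (y0 + 1 / 2),
      ENNReal.ofReal ‖D ((σ : ℂ) + y * Complex.I)‖ ≤
        ENNReal.ofReal (K * L) + ∑ i, ENNReal.ofReal (2 / (σ + |y - (ρ i).im|)) := by
    intro y hy
    have hre : ((σ : ℂ) + y * Complex.I).re = σ := by simp
    have him : ((σ : ℂ) + y * Complex.I).im = y := by simp
    have h1 := hD ((σ : ℂ) + y * Complex.I) (by rw [hre]; exact hσ0) (by rw [hre]; exact hσ1)
      (by rw [him, abs_le]; constructor <;> [linarith [hy.1]; linarith [hy.2]])
    have h2 : ∑ i, 1 / ‖(σ : ℂ) + y * Complex.I - ρ i‖ ≤ ∑ i, 2 / (σ + |y - (ρ i).im|) := by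
      refine Finset.sum_le_sum (fun i _ => ?_)
      have ha : σ ≤ ‖(σ : ℂ) + y * Complex.I - ρ i‖ := by
        have := Complex.re_le_norm ((σ : ℂ) + y * Complex.I - ρ i)
        rw [Complex.sub_re, hre] at this
        linarith [hρ i]
      have hb : |y - (ρ i).im| ≤ ‖(σ : ℂ) + y * Complex.I - ρ i‖ := by
        have := Complex.abs_im_le_norm ((σ : ℂ) + y * Complex.I - ρ i)
        rwa [Complex.sub_im, him] at this
      have hc : 0 < ‖(σ : ℂ) + y * Complex.I - ρ i‖ := by linarith
      have hd := abs_nonneg (y - (ρ i).im)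
      rw [div_le_div_iff₀ hc (by linarith)]
      linarith
    have h3 : ∑ i, ENNReal.ofReal (2 / (σ + |y - (ρ i).im|)) =
        ENNReal.ofReal (∑ i, 2 / (σ + |y - (ρ i).im|)) := by
      rw [ENNReal.ofReal_sum_of_nonneg]
      intro i _
      have hd := abs_nonneg (y - (ρ i).im)
      positivity
    have h4 : 0 ≤ ∑ i, 2 / (σ + |y - (ρ i).im|) := by
      refine Finset.sum_nonneg (fun i _ => ?_)
      have hd := abs_nonneg (y - (ρ i).im)
      positivity
    rw [h3, ← ENNReal.ofReal_add (by positivity) h4]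
    exact ENNReal.ofReal_le_ofReal (h1.trans (by linarith))
  have hmeas : ∀ i, Measurable (fun y : ℝ => ENNReal.ofReal (2 / (σ + |y - (ρ i).im|))) := by
    intro i
    apply Measurable.ennreal_ofReal
    apply Measurable.div measurable_const
    apply Measurable.add measurable_const
    exact (continuous_abs.measurable).comp (measurable_id.sub_const _)
  have hvol : volume (Icc (y0 - 1 / 2) (y0 + 1 / 2)) = 1 := by
    rw [Real.volume_Icc]
    have : y0 + 1 / 2 - (y0 - 1 / 2) = 1 := by ring
    rw [this, ENNReal.ofReal_one]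
  calc ∫⁻ y in Icc (y0 - 1 / 2) (y0 + 1 / 2), ENNReal.ofReal ‖D ((σ : ℂ) + y * Complex.I)‖
      ≤ ∫⁻ y in Icc (y0 - 1 / 2) (y0 + 1 / 2), (ENNReal.ofReal (K * L) +
          ∑ i, ENNReal.ofReal (2 / (σ + |y - (ρ i).im|))) := setLIntegral_mono' measurableSet_Icc hpt
    _ = ENNReal.ofReal (K * L) + ∑ i, ∫⁻ y in Icc (y0 - 1 / 2) (y0 + 1 / 2),
          ENNReal.ofReal (2 / (σ + |y - (ρ i).im|)) := by
      rw [lintegral_add_left measurable_const, setLIntegral_const, hvol, mul_one,
        lintegral_finsetSum _ (fun i _ => hmeas i)]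
    _ ≤ ENNReal.ofReal (K * L) + ∑ _i : Fin n, ENNReal.ofReal (4 * Real.log ((σ + 1) / σ)) := by
      refine add_le_add le_rfl (Finset.sum_le_sum (fun i _ => ?_))
      have h := L3 σ (ρ i).im (y0 - 1 / 2) hσ0
      have e : y0 - 1 / 2 + 1 = y0 + 1 / 2 := by ring
      rwa [e] at h
    _ = ENNReal.ofReal (K * L + n * (4 * Real.log ((σ + 1) / σ))) := by
      rw [Finset.sum_const, Finset.card_univ, Fintype.card_fin, nsmul_eq_mul,
        ENNReal.ofReal_add (by positivity) (by positivity), ENNReal.ofReal_mul (by positivity),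
        ENNReal.ofReal_mul (Nat.cast_nonneg n), ENNReal.ofReal_natCast,
        ENNReal.ofReal_mul (by norm_num : (0 : ℝ) ≤ 4)]
    _ ≤ ENNReal.ofReal (5 * K * L * (1 + Real.log (1 / σ))) := by
      apply ENNReal.ofReal_le_ofReal
      have h1 : (n : ℝ) * (4 * Real.log ((σ + 1) / σ)) ≤ K * L * (4 * (1 + Real.log (1 / σ))) :=
        mul_le_mul hn (by linarith) (by positivity) (by positivity)
      have h2 : 0 ≤ K * L * Real.log (1 / σ) := by positivity
      nlinarith

end Pool.Agent.W513.SP
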